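import Pool.Agent.V1146.Umb.Fin

/-!
# The p-umbel inequality for Heisenberg groups over Banach spaces

Let `X` be a real normed space with property (β_p), `1 < p < ∞`, and let `ω` be a nonzero bounded
antisymmetric bilinear form on `X`. The Heisenberg group `ℍ(ω) = X × ℝ` with its
Carnot-Caratheodory distance carries an equivalent quasi-metric which satisfies the `p`-umbel
inequality. This answers Q1 in the affirmative (completeness of `X` is not needed).

The quasi-metric is `d(x, y) = N(x⁻¹ * y)` with `N(v, s) = max(‖v‖, √(Λ |s|))` and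
`Λ = 1 / (1 + ‖ω‖)`.
-/

namespace Pool.Agent.Results.MP_f1e800_an.Umbel

open Pool.Agent.V1146.Umb
open scoped NNReal

/-- **Q1 is true.** -/
theorem result (p : ℝ) (hp : 1 < p) (X : Type*) [NormedAddCommGroup X] [NormedSpace ℝ X]
    (hX : PropertyBeta p X) (ω : X →L[ℝ] X →L[ℝ] ℝ) (hω : ∀ x y, ω x y = - ω y x)
    (hne : ω ≠ 0) :
    ∃ d : X × ℝ → X × ℝ → ℝ≥0, EquivalentQuasiMetric ω d ∧ UmbelInequality p d :=
  final hp hX ω hω hne

end Pool.Agent.Results.MP_f1e800_an.Umbel
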